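import Mathlib

namespace Pool.Agent.LibRepulsion

/-- the basic identity -/
theorem basic_identity (d S s σ Δ P Q R : ℤ)
    (h1 : 4 * (s * σ) = 3 * d * S ^ 2 + 2 * Δ * S + (d ^ 3 + 2 * P * d + 4 * Q))
    (h2 : 2 * (s ^ 2 + σ ^ 2) = S ^ 3 + 3 * S * d ^ 2 + 2 * P * S + 2 * Δ * d + 4 * R) :
    (8 * s ^ 2 - 9 * d ^ 2 * S - 12 * d * Δ) *
      (4 * S ^ 3 + (3 * d ^ 2 + 8 * P) * S - 4 * Δ * d + 16 * R - 8 * s ^ 2) =
    (16 * Δ ^ 2 - 3 * d ^ 4 - 24 * P * d ^ 2 + 96 * d * Q) * S ^ 2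
      + 16 * (Δ * d ^ 3 - 4 * d * Δ * P + 4 * Δ * Q - 9 * d ^ 2 * R) * S
      + 4 * ((d ^ 3 + 2 * P * d + 4 * Q) ^ 2 + 12 * d ^ 2 * Δ ^ 2 - 48 * d * Δ * R) := by
  have h3 : 8 * s ^ 2 * (S ^ 3 + 3 * S * d ^ 2 + 2 * P * S + 2 * Δ * d + 4 * R - 2 * s ^ 2)
      = (3 * d * S ^ 2 + 2 * Δ * S + (d ^ 3 + 2 * P * d + 4 * Q)) ^ 2 := by
    rw [← h1, ← h2]; ring
  linear_combination 4 * h3

/-- the degenerate case: both curves are singular -/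
theorem both_singular (d Δ P Q R A₁ B₁ A₂ B₂ : ℤ) (hd : d ≠ 0)
    (hΔ : Δ = A₂ - A₁) (hP : P = A₁ + A₂) (hQ : Q = B₂ - B₁) (hR : R = B₁ + B₂)
    (ha2 : 16 * Δ ^ 2 - 3 * d ^ 4 - 24 * P * d ^ 2 + 96 * d * Q = 0)
    (ha1 : Δ * d ^ 3 - 4 * d * Δ * P + 4 * Δ * Q - 9 * d ^ 2 * R = 0)
    (ha0 : (d ^ 3 + 2 * P * d + 4 * Q) ^ 2 + 12 * d ^ 2 * Δ ^ 2 - 48 * d * Δ * R = 0) :
    4 * A₁ ^ 3 + 27 * B₁ ^ 2 = 0 ∧ 4 * A₂ ^ 3 + 27 * B₂ ^ 2 = 0 := by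
  have e1 : 8 * Δ ^ 2 + 3 * d * (d ^ 3 + 2 * P * d + 4 * Q) = 0 := by
    have : (8 * Δ ^ 2 + 3 * d * (d ^ 3 + 2 * P * d + 4 * Q)) ^ 2 = 0 := by
      linear_combination 4 * Δ ^ 2 * ha2 - 48 * d * Δ * ha1 + 9 * d ^ 2 * ha0
    exact pow_eq_zero_iff (two_ne_zero) |>.mp this
  have e3 : 24 * d ^ 2 * P + (9 * d ^ 4 + 16 * Δ ^ 2) = 0 := by
    have : 3 * (24 * d ^ 2 * P + (9 * d ^ 4 + 16 * Δ ^ 2)) = 0 := by
      linear_combination 8 * e1 - ha2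
    omega
  have e4 : 48 * d * Q + (3 * d ^ 4 + 16 * Δ ^ 2) = 0 := by
    linear_combination 4 * e1 - e3
  have e5 : 108 * d ^ 3 * R = Δ * (27 * d ^ 4 + 16 * Δ ^ 2) := by
    linear_combination (-12 * d) * ha1 - 2 * Δ * e3 + Δ * e4
  have f1 : 48 * d ^ 2 * A₁ = -(3 * d ^ 2 + 4 * Δ) ^ 2 := by
    have : A₁ + A₁ = P - Δ := by rw [hP, hΔ]; ring
    linear_combination 24 * d ^ 2 * this + e3
  have f2 : 48 * d ^ 2 * A₂ = -(3 * d ^ 2 - 4 * Δ) ^ 2 := by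
    have : A₂ + A₂ = P + Δ := by rw [hP, hΔ]; ring
    linear_combination 24 * d ^ 2 * this + e3
  have g1 : 864 * d ^ 3 * B₁ = (3 * d ^ 2 + 4 * Δ) ^ 3 := by
    have : B₁ + B₁ = R - Q := by rw [hR, hQ]; ring
    linear_combination 432 * d ^ 3 * this + 4 * e5 - 9 * d ^ 2 * e4
  have g2 : 864 * d ^ 3 * B₂ = -(3 * d ^ 2 - 4 * Δ) ^ 3 := by
    have : B₂ + B₂ = R + Q := by rw [hR, hQ]; ring
    linear_combination 432 * d ^ 3 * this + 4 * e5 + 9 * d ^ 2 * e4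
  constructor
  · have : 27648 * d ^ 6 * (4 * A₁ ^ 3 + 27 * B₁ ^ 2) = 0 := by
      have : 27648 * d ^ 6 * (4 * A₁ ^ 3 + 27 * B₁ ^ 2)
        = (48 * d ^ 2 * A₁) ^ 3 + (864 * d ^ 3 * B₁) ^ 2 := by ring
      rw [this, f1, g1]; ring
    rcases mul_eq_zero.mp this with h | h
    · exfalso
      have := pow_ne_zero 6 hd
      rcases mul_eq_zero.mp h with h | h
      · norm_num at h
      · exact this h
    · exact h
  · have : 27648 * d ^ 6 * (4 * A₂ ^ 3 + 27 * B₂ ^ 2) = 0 := by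
      have : 27648 * d ^ 6 * (4 * A₂ ^ 3 + 27 * B₂ ^ 2)
        = (48 * d ^ 2 * A₂) ^ 3 + (864 * d ^ 3 * B₂) ^ 2 := by ring
      rw [this, f2, g2]; ring
    rcases mul_eq_zero.mp this with h | h
    · exfalso
      have := pow_ne_zero 6 hd
      rcases mul_eq_zero.mp h with h | h
      · norm_num at h
      · exact this h
    · exact h

/-- sizes of the three coefficients -/
theorem size_bounds (N d Δ P Q R : ℤ) (hN : 1 ≤ N) (hd : 1 ≤ d)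
    (hΔ : |Δ| ≤ 2 * N) (hP : |P| ≤ 2 * N) (hQ : |Q| ≤ 2 * N) (hR : |R| ≤ 2 * N) :
    |16 * Δ ^ 2 - 24 * P * d ^ 2 + 96 * d * Q| ≤ 64 * N ^ 2 + 48 * (d ^ 2 * N) + 192 * (d * N) ∧
    |Δ * d ^ 3 - 4 * d * Δ * P + 4 * Δ * Q - 9 * d ^ 2 * R| ≤
      2 * (N * d ^ 3) + 16 * (d * N ^ 2) + 16 * N ^ 2 + 18 * (d ^ 2 * N) ∧
    |(d ^ 3 + 2 * P * d + 4 * Q) ^ 2 + 12 * d ^ 2 * Δ ^ 2 - 48 * d * Δ * R| ≤
      (d ^ 3 + 4 * (d * N) + 8 * N) ^ 2 + 48 * (d ^ 2 * N ^ 2) + 192 * (d * N ^ 2) := by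
  have hN0 : 0 ≤ N := by linarith
  have hd0 : 0 ≤ d := by linarith
  have hΔ2 : |Δ ^ 2| ≤ 4 * N ^ 2 := by
    rw [abs_pow]; nlinarith [abs_nonneg Δ]
  have hΔP : |Δ * P| ≤ 4 * N ^ 2 := by
    rw [abs_mul]; nlinarith [abs_nonneg Δ, abs_nonneg P]
  have hΔQ : |Δ * Q| ≤ 4 * N ^ 2 := by
    rw [abs_mul]; nlinarith [abs_nonneg Δ, abs_nonneg Q]
  have hΔR : |Δ * R| ≤ 4 * N ^ 2 := by
    rw [abs_mul]; nlinarith [abs_nonneg Δ, abs_nonneg R]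
  have key : ∀ (c u b : ℤ), 0 ≤ c → |u| ≤ b → |c * u| ≤ c * b := by
    intro c u b hc hu
    rw [abs_mul, abs_of_nonneg hc]
    exact mul_le_mul_of_nonneg_left hu hc
  refine ⟨?_, ?_, ?_⟩
  · have e : 16 * Δ ^ 2 - 24 * P * d ^ 2 + 96 * d * Q
        = 16 * Δ ^ 2 - (24 * d ^ 2) * P + (96 * d) * Q := by ring
    rw [e]
    have h1 := key 16 (Δ ^ 2) _ (by norm_num) hΔ2
    have h2 := key (24 * d ^ 2) P _ (by positivity) hP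
    have h3 := key (96 * d) Q _ (by positivity) hQ
    calc |16 * Δ ^ 2 - (24 * d ^ 2) * P + (96 * d) * Q|
        ≤ |16 * Δ ^ 2 - (24 * d ^ 2) * P| + |(96 * d) * Q| := abs_add_le _ _
      _ ≤ |16 * Δ ^ 2| + |(24 * d ^ 2) * P| + |(96 * d) * Q| := by
          gcongr; exact abs_sub _ _
      _ ≤ _ := by nlinarith
  · have e : Δ * d ^ 3 - 4 * d * Δ * P + 4 * Δ * Q - 9 * d ^ 2 * R
        = (d ^ 3) * Δ - (4 * d) * (Δ * P) + 4 * (Δ * Q) - (9 * d ^ 2) * R := by ring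
    rw [e]
    have h1 := key (d ^ 3) Δ _ (by positivity) hΔ
    have h2 := key (4 * d) (Δ * P) _ (by positivity) hΔP
    have h3 := key 4 (Δ * Q) _ (by positivity) hΔQ
    have h4 := key (9 * d ^ 2) R _ (by positivity) hR
    calc |(d ^ 3) * Δ - (4 * d) * (Δ * P) + 4 * (Δ * Q) - (9 * d ^ 2) * R|
        ≤ |(d ^ 3) * Δ - (4 * d) * (Δ * P) + 4 * (Δ * Q)| + |(9 * d ^ 2) * R| := abs_sub _ _
      _ ≤ |(d ^ 3) * Δ - (4 * d) * (Δ * P)| + |4 * (Δ * Q)| + |(9 * d ^ 2) * R| := by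
          gcongr; exact abs_add_le _ _
      _ ≤ |(d ^ 3) * Δ| + |(4 * d) * (Δ * P)| + |4 * (Δ * Q)| + |(9 * d ^ 2) * R| := by
          gcongr; exact abs_sub _ _
      _ ≤ _ := by nlinarith
  · have e : (d ^ 3 + 2 * P * d + 4 * Q) ^ 2 + 12 * d ^ 2 * Δ ^ 2 - 48 * d * Δ * R
        = (d ^ 3 + (2 * d) * P + 4 * Q) ^ 2 + (12 * d ^ 2) * Δ ^ 2 - (48 * d) * (Δ * R) := by ring
    rw [e]
    have h0 : |d ^ 3 + (2 * d) * P + 4 * Q| ≤ d ^ 3 + 4 * (d * N) + 8 * N := by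
      have h1 := key (2 * d) P _ (by positivity) hP
      have h2 := key 4 Q _ (by positivity) hQ
      calc |d ^ 3 + (2 * d) * P + 4 * Q| ≤ |d ^ 3 + (2 * d) * P| + |4 * Q| := abs_add_le _ _
        _ ≤ |d ^ 3| + |(2 * d) * P| + |4 * Q| := by gcongr; exact abs_add_le _ _
        _ ≤ _ := by rw [abs_of_nonneg (by positivity : (0:ℤ) ≤ d ^ 3)]; nlinarith
    have h1 : |(d ^ 3 + (2 * d) * P + 4 * Q) ^ 2| ≤ (d ^ 3 + 4 * (d * N) + 8 * N) ^ 2 := by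
      rw [abs_pow]
      exact pow_le_pow_left₀ (abs_nonneg _) h0 2
    have h2 := key (12 * d ^ 2) (Δ ^ 2) _ (by positivity) hΔ2
    have h3 := key (48 * d) (Δ * R) _ (by positivity) hΔR
    calc |(d ^ 3 + (2 * d) * P + 4 * Q) ^ 2 + (12 * d ^ 2) * Δ ^ 2 - (48 * d) * (Δ * R)|
        ≤ |(d ^ 3 + (2 * d) * P + 4 * Q) ^ 2 + (12 * d ^ 2) * Δ ^ 2| + |(48 * d) * (Δ * R)| :=
          abs_sub _ _
      _ ≤ |(d ^ 3 + (2 * d) * P + 4 * Q) ^ 2| + |(12 * d ^ 2) * Δ ^ 2| + |(48 * d) * (Δ * R)| := by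
          gcongr; exact abs_add_le _ _
      _ ≤ _ := by nlinarith

/-- the second factor is large -/
theorem factor_large (N d S s σ Δ P R E : ℤ) (hN : 1 ≤ N) (hd : 1 ≤ d)
    (hΔ : |Δ| ≤ 2 * N) (hP : |P| ≤ 2 * N) (hR : |R| ≤ 2 * N)
    (hE : |E| ≤ d ^ 3 + 4 * (d * N) + 8 * N)
    (hSd : 100 * d ≤ S) (hSN : 100 * N ≤ S)
    (hσ : |s| ≤ σ)
    (h1 : 4 * (s * σ) = 3 * d * S ^ 2 + 2 * Δ * S + E) :
    3 * S ^ 3 ≤ 4 * S ^ 3 + (3 * d ^ 2 + 8 * P) * S - 4 * Δ * d + 16 * R - 8 * s ^ 2 := by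
  have hN0 : 0 ≤ N := by linarith
  have hd0 : 0 ≤ d := by linarith
  have hS0 : 0 ≤ S := by linarith
  have hs : 8 * s ^ 2 ≤ 2 * (3 * d * S ^ 2 + 4 * (N * S) + (d ^ 3 + 4 * (d * N) + 8 * N)) := by
    have a1 : s ^ 2 ≤ |s * σ| := by
      rw [abs_mul, ← sq_abs s]
      nlinarith [abs_nonneg s, le_abs_self σ]
    have a2 : 4 * |s * σ| = |3 * d * S ^ 2 + 2 * Δ * S + E| := by
      rw [← h1, abs_mul]; norm_num
    have a3 : |3 * d * S ^ 2 + 2 * Δ * S + E| ≤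
        3 * d * S ^ 2 + 4 * (N * S) + (d ^ 3 + 4 * (d * N) + 8 * N) := by
      have b1 : |2 * Δ * S| ≤ 4 * (N * S) := by
        rw [abs_mul, abs_mul, abs_of_nonneg hS0]; norm_num; nlinarith
      calc |3 * d * S ^ 2 + 2 * Δ * S + E| ≤ |3 * d * S ^ 2 + 2 * Δ * S| + |E| := abs_add_le _ _
        _ ≤ |3 * d * S ^ 2| + |2 * Δ * S| + |E| := by gcongr; exact abs_add_le _ _
        _ ≤ _ := by rw [abs_of_nonneg (by positivity : (0:ℤ) ≤ 3 * d * S ^ 2)]; linarith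
    linarith
  have hP' := abs_le.mp hP
  have hΔ' := abs_le.mp hΔ
  have hR' := abs_le.mp hR
  have c1 : -(16 * (N * S)) ≤ 8 * P * S := by nlinarith
  have c2 : 4 * Δ * d ≤ 8 * (N * d) := by nlinarith
  have c3 : 0 ≤ 3 * d ^ 2 * S := by positivity
  -- everything in terms of S
  have k0 : 100 ≤ S := by linarith
  have k1 : 100 * (d * S ^ 2) ≤ S ^ 3 := by nlinarith [sq_nonneg S]
  have k2 : 100 * (N * S) ≤ S ^ 2 := by nlinarith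
  have k3 : 100 * S ^ 2 ≤ S ^ 3 := by nlinarith [sq_nonneg S]
  have k4 : 10000 * (d * N) ≤ S ^ 2 := by nlinarith
  have k5 : 100 * S ≤ S ^ 2 := by nlinarith
  have k6 : d ^ 3 ≤ d * S ^ 2 := by
    have : d ^ 2 ≤ S ^ 2 := by nlinarith
    nlinarith
  nlinarith


theorem combine (S J W a2 a1 a0 b2 b1 b0 : ℤ) (hS : 1 ≤ S) (hW : 3 * S ^ 3 ≤ W)
    (h : J * W = a2 * S ^ 2 + 16 * a1 * S + 4 * a0)
    (h2 : |a2| ≤ b2) (h1 : |a1| ≤ b1) (h0 : |a0| ≤ b0)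
    (hb : b2 * S ^ 2 + 16 * b1 * S + 4 * b0 < 3 * S ^ 3) :
    a2 * S ^ 2 + 16 * a1 * S + 4 * a0 = 0 := by
  have hub : |a2 * S ^ 2 + 16 * a1 * S + 4 * a0| ≤ b2 * S ^ 2 + 16 * b1 * S + 4 * b0 := by
    calc |a2 * S ^ 2 + 16 * a1 * S + 4 * a0| ≤ |a2 * S ^ 2| + |16 * a1 * S| + |4 * a0| :=
          abs_add_three _ _ _
      _ = |a2| * S ^ 2 + 16 * |a1| * S + 4 * |a0| := by
          rw [abs_mul, abs_mul, abs_mul, abs_mul, abs_of_nonneg (by positivity : (0:ℤ) ≤ S ^ 2),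
            abs_of_nonneg (by linarith : (0:ℤ) ≤ S)]
          norm_num
      _ ≤ _ := by
          have : |a2| * S ^ 2 ≤ b2 * S ^ 2 := mul_le_mul_of_nonneg_right h2 (by positivity)
          have : 16 * |a1| * S ≤ 16 * b1 * S :=
            mul_le_mul_of_nonneg_right (by linarith) (by linarith)
          linarith
  have hJ : J = 0 := by
    by_contra hJ
    have h1J : 1 ≤ |J| := Int.one_le_abs hJ
    have hW0 : 0 ≤ W := le_trans (by positivity) hW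
    have : |J * W| = |J| * W := by rw [abs_mul, abs_of_nonneg hW0]
    rw [h] at this
    nlinarith
  rw [← h, hJ]; ring

theorem regimeA_num (N d : ℤ) (hN : 1 ≤ N) (hd : 8 ≤ d) (h : 64 * N ≤ d ^ 2) :
    64 * N ^ 2 + 48 * (d ^ 2 * N) + 192 * (d * N) ≤ 2 * d ^ 4 ∧
    2 * (N * d ^ 3) + 16 * (d * N ^ 2) + 16 * N ^ 2 + 18 * (d ^ 2 * N) ≤ d ^ 5 ∧
    (d ^ 3 + 4 * (d * N) + 8 * N) ^ 2 + 48 * (d ^ 2 * N ^ 2) + 192 * (d * N ^ 2) ≤ 2 * d ^ 6 := by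
  have hd0 : 0 ≤ d := by linarith
  have d2 : 0 ≤ d ^ 2 := by positivity
  have e1 : 4096 * N ^ 2 ≤ d ^ 4 := by nlinarith
  have e2 : 64 * (d ^ 2 * N) ≤ d ^ 4 := by nlinarith
  have e3 : 64 * (d * N) ≤ d ^ 3 := by nlinarith
  have e4 : 8 * d ^ 3 ≤ d ^ 4 := by
    have : 0 ≤ d ^ 3 := by positivity
    nlinarith
  have e5 : 8 * d ^ 4 ≤ d ^ 5 := by
    have : 0 ≤ d ^ 4 := by positivity
    nlinarith
  have e6 : 64 * (N * d ^ 3) ≤ d ^ 5 := by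
    have : 0 ≤ d ^ 3 := by positivity
    nlinarith
  have e7 : 4096 * (d * N ^ 2) ≤ d ^ 5 := by nlinarith
  have e8 : 4096 * (d ^ 2 * N ^ 2) ≤ d ^ 6 := by nlinarith
  have e9 : 8 * d ^ 5 ≤ d ^ 6 := by
    have : 0 ≤ d ^ 5 := by positivity
    nlinarith
  have e10 : 8 * d ^ 2 ≤ d ^ 3 := by nlinarith
  refine ⟨by linarith, by linarith, ?_⟩
  have f1 : 16 * (d ^ 3 + 4 * (d * N) + 8 * N) ≤ 18 * d ^ 3 := by linarith
  have f0 : 0 ≤ d ^ 3 + 4 * (d * N) + 8 * N := by positivity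
  have f2 : (16 * (d ^ 3 + 4 * (d * N) + 8 * N)) ^ 2 ≤ (18 * d ^ 3) ^ 2 :=
    pow_le_pow_left₀ (by linarith) f1 2
  nlinarith

theorem regimeA_zero (S d a2 a1 a0 : ℤ) (hd : 1 ≤ d) (hS : 200 * d < S)
    (h2 : a2 ≤ - d ^ 4) (h1 : |a1| ≤ d ^ 5) (h0 : |a0| ≤ 2 * d ^ 6)
    (h : a2 * S ^ 2 + 16 * a1 * S + 4 * a0 = 0) : False := by
  have hS0 : 0 ≤ S := by linarith
  have g1 : 16 * a1 * S ≤ 16 * d ^ 5 * S := by
    have := (abs_le.mp h1).2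
    nlinarith
  have g0 := (abs_le.mp h0).2
  have g2 : a2 * S ^ 2 ≤ - d ^ 4 * S ^ 2 := by nlinarith [sq_nonneg S]
  have k : d ^ 4 * S ^ 2 ≤ d ^ 4 * (16 * d * S + 8 * d ^ 2) := by nlinarith
  have k2 : S ^ 2 ≤ 16 * d * S + 8 * d ^ 2 := le_of_mul_le_mul_left k (by positivity)
  nlinarith

theorem regimeB_num (N d : ℤ) (hN : 1 ≤ N) (hd : 1 ≤ d) (h : d ^ 2 ≤ 64 * N) :
    3 * d ^ 4 + (64 * N ^ 2 + 48 * (d ^ 2 * N) + 192 * (d * N)) ≤ 496 * (d ^ 2 * N ^ 2) ∧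
    2 * (N * d ^ 3) + 16 * (d * N ^ 2) + 16 * N ^ 2 + 18 * (d ^ 2 * N) ≤ 178 * (d ^ 2 * N ^ 2) ∧
    (d ^ 3 + 4 * (d * N) + 8 * N) ^ 2 + 48 * (d ^ 2 * N ^ 2) + 192 * (d * N ^ 2) ≤
      6016 * (d ^ 2 * N ^ 2) := by
  have hd0 : 0 ≤ d := by linarith
  have hN0 : 0 ≤ N := by linarith
  have t1 : 1 ≤ d ^ 2 := by nlinarith
  have t3 : d ≤ d ^ 2 := by nlinarith
  have t4 : N ≤ N ^ 2 := by nlinarith
  have u1 : d ^ 2 * N ≤ d ^ 2 * N ^ 2 := by nlinarith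
  have u2 : N ^ 2 ≤ d ^ 2 * N ^ 2 := by nlinarith
  have u3 : d * N ^ 2 ≤ d ^ 2 * N ^ 2 := by nlinarith
  have u4 : d * N ≤ d ^ 2 * N ^ 2 := by nlinarith
  have u5 : d ^ 4 ≤ 64 * (d ^ 2 * N) := by nlinarith
  have u6 : N * d ^ 3 ≤ 64 * (d * N ^ 2) := by nlinarith
  refine ⟨by linarith, by linarith, ?_⟩
  have f1 : d ^ 3 + 4 * (d * N) + 8 * N ≤ 76 * (d * N) := by
    have : d ^ 3 ≤ 64 * (d * N) := by nlinarith
    nlinarith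
  have f0 : 0 ≤ d ^ 3 + 4 * (d * N) + 8 * N := by positivity
  have f2 : (d ^ 3 + 4 * (d * N) + 8 * N) ^ 2 ≤ (76 * (d * N)) ^ 2 :=
    pow_le_pow_left₀ f0 f1 2
  have f3 : (76 * (d * N)) ^ 2 = 5776 * (d ^ 2 * N ^ 2) := by ring
  linarith

theorem regimeB_zero (S D a2 a1 a0 : ℤ) (hD : 1 ≤ D) (hS : 3000 * D < S)
    (h1 : |a1| ≤ 178 * D) (h0 : |a0| ≤ 6016 * D)
    (h : a2 * S ^ 2 + 16 * a1 * S + 4 * a0 = 0) : a2 = 0 ∧ a1 = 0 ∧ a0 = 0 := by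
  have hS0 : 0 ≤ S := by linarith
  have g1 : |a1| * S ≤ 178 * D * S := mul_le_mul_of_nonneg_right h1 hS0
  have ha2 : a2 = 0 := by
    by_contra hne
    have h1a : 1 ≤ |a2| := Int.one_le_abs hne
    have e : |a2 * S ^ 2| = |16 * a1 * S + 4 * a0| := by
      have : a2 * S ^ 2 = -(16 * a1 * S + 4 * a0) := by linarith
      rw [this, abs_neg]
    have e2 : |a2 * S ^ 2| = |a2| * S ^ 2 := by
      rw [abs_mul, abs_of_nonneg (by positivity : (0:ℤ) ≤ S ^ 2)]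
    have e3 : |16 * a1 * S + 4 * a0| ≤ 16 * (|a1| * S) + 4 * |a0| := by
      calc |16 * a1 * S + 4 * a0| ≤ |16 * a1 * S| + |4 * a0| := abs_add_le _ _
        _ = _ := by
          rw [abs_mul, abs_mul, abs_mul, abs_of_nonneg hS0]; norm_num; ring
    have e4 : S ^ 2 ≤ |a2| * S ^ 2 := by nlinarith [sq_nonneg S]
    have e5 : S ^ 2 ≤ 2848 * D * S + 24064 * D := by linarith
    nlinarith
  subst ha2
  have ha1 : a1 = 0 := by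
    by_contra hne
    have h1a : 1 ≤ |a1| := Int.one_le_abs hne
    have e : |16 * a1 * S| = |4 * a0| := by
      have : 16 * a1 * S = -(4 * a0) := by linarith
      rw [this, abs_neg]
    have e2 : |16 * a1 * S| = 16 * (|a1| * S) := by
      rw [abs_mul, abs_mul, abs_of_nonneg hS0]; norm_num; ring
    have e3 : |4 * a0| = 4 * |a0| := by rw [abs_mul]; norm_num
    nlinarith
  subst ha1
  exact ⟨rfl, rfl, by linarith⟩

end Pool.Agent.LibRepulsion
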