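import Pool.Agent.LibRepulsion.Basic

namespace Pool.Agent.LibRepulsion

theorem main_core (N d S A₁ B₁ A₂ B₂ s σ : ℤ) (hN : 1 ≤ N) (hd : 1 ≤ d)
    (hA₁ : |A₁| ≤ N) (hB₁ : |B₁| ≤ N) (hA₂ : |A₂| ≤ N) (hB₂ : |B₂| ≤ N)
    (hns : 4 * A₁ ^ 3 + 27 * B₁ ^ 2 ≠ 0 ∨ 4 * A₂ ^ 3 + 27 * B₂ ^ 2 ≠ 0)
    (hσ : |s| ≤ σ)
    (h1 : 4 * (s * σ) = 3 * d * S ^ 2 + 2 * (A₂ - A₁) * S +
      (d ^ 3 + 2 * (A₁ + A₂) * d + 4 * (B₂ - B₁)))
    (h2 : 2 * (s ^ 2 + σ ^ 2) = S ^ 3 + 3 * S * d ^ 2 + 2 * (A₁ + A₂) * S +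
      2 * (A₂ - A₁) * d + 4 * (B₁ + B₂)) :
    (d ^ 2 ≤ 64 * N ∧ S ≤ 3000 * (d ^ 2 * N ^ 2)) ∨ (64 * N ≤ d ^ 2 ∧ S ≤ 200 * d ^ 4) := by
  have hN0 : 0 ≤ N := by linarith
  have hd0 : 0 ≤ d := by linarith
  have t1 : 1 ≤ d ^ 2 := by nlinarith
  have t2 : 1 ≤ N ^ 2 := by nlinarith
  have t3 : d ≤ d ^ 2 := by nlinarith
  have t4 : N ≤ N ^ 2 := by nlinarith
  have hΔ : |A₂ - A₁| ≤ 2 * N := (abs_sub _ _).trans (by linarith)
  have hP : |A₁ + A₂| ≤ 2 * N := (abs_add_le _ _).trans (by linarith)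
  have hQ : |B₂ - B₁| ≤ 2 * N := (abs_sub _ _).trans (by linarith)
  have hR : |B₁ + B₂| ≤ 2 * N := (abs_add_le _ _).trans (by linarith)
  obtain ⟨b2, b1, b0⟩ := size_bounds N d _ _ _ _ hN hd hΔ hP hQ hR
  have hE : |d ^ 3 + 2 * (A₁ + A₂) * d + 4 * (B₂ - B₁)| ≤ d ^ 3 + 4 * (d * N) + 8 * N := by
    have e : d ^ 3 + 2 * (A₁ + A₂) * d + 4 * (B₂ - B₁)
      = d ^ 3 + (2 * d) * (A₁ + A₂) + 4 * (B₂ - B₁) := by ring
    rw [e]
    calc |d ^ 3 + (2 * d) * (A₁ + A₂) + 4 * (B₂ - B₁)|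
        ≤ |d ^ 3| + |(2 * d) * (A₁ + A₂)| + |4 * (B₂ - B₁)| := abs_add_three _ _ _
      _ ≤ _ := by
        rw [abs_of_nonneg (by positivity : (0:ℤ) ≤ d ^ 3), abs_mul (2 * d), abs_mul 4,
          abs_of_nonneg (by positivity : (0:ℤ) ≤ 2 * d)]
        norm_num
        nlinarith
  have hid := basic_identity d S s σ _ _ _ _ h1 h2
  have hb2' : |(16 * (A₂ - A₁) ^ 2 - 3 * d ^ 4 - 24 * (A₁ + A₂) * d ^ 2 + 96 * d * (B₂ - B₁))
      + 3 * d ^ 4| ≤ 64 * N ^ 2 + 48 * (d ^ 2 * N) + 192 * (d * N) := by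
    have : (16 * (A₂ - A₁) ^ 2 - 3 * d ^ 4 - 24 * (A₁ + A₂) * d ^ 2 + 96 * d * (B₂ - B₁))
      + 3 * d ^ 4 = 16 * (A₂ - A₁) ^ 2 - 24 * (A₁ + A₂) * d ^ 2 + 96 * d * (B₂ - B₁) := by ring
    rw [this]; exact b2
  rcases le_total (64 * N) (d ^ 2) with hreg | hreg
  · right
    refine ⟨hreg, ?_⟩
    by_contra hc
    push Not at hc
    have hd8 : 8 ≤ d := by nlinarith
    obtain ⟨n2, n1, n0⟩ := regimeA_num N d hN hd8 hreg
    have v1 : d ≤ d ^ 4 := by
      have : d ^ 2 ≤ d ^ 4 := by nlinarith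
      linarith
    have v2 : N ≤ d ^ 4 := by
      have : d ^ 2 ≤ d ^ 4 := by nlinarith
      linarith
    have hfac := factor_large N d S s σ _ _ _ _ hN hd hΔ hP hR hE (by linarith) (by linarith)
      hσ h1
    have c2 := abs_le.mp (hb2'.trans n2)
    have d4 : 0 ≤ d ^ 4 := by positivity
    have hzero := combine S _ _ _ _ _ (5 * d ^ 4) (d ^ 5) (2 * d ^ 6) (by linarith) hfac hid
      (abs_le.mpr ⟨by linarith, by linarith⟩) (b1.trans n1) (b0.trans n0) (by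
        have x1 : 200 * d ^ 4 * S ^ 2 ≤ S * S ^ 2 :=
          mul_le_mul_of_nonneg_right hc.le (by positivity)
        have x2 : 200 * d ^ 5 ≤ S * S := by
          have : 200 * d ^ 4 * d ≤ S * S := mul_le_mul hc.le (by linarith) hd0 (by linarith)
          linarith [this, (by ring : 200 * d ^ 4 * d = 200 * d ^ 5)]
        have x3 : 200 * d ^ 6 ≤ S * S := by
          have y : d ^ 2 ≤ S := by
            have : d ^ 2 ≤ d ^ 4 := by nlinarith
            linarith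
          have : 200 * d ^ 4 * d ^ 2 ≤ S * S := mul_le_mul hc.le y (by positivity) (by linarith)
          linarith [this, (by ring : 200 * d ^ 4 * d ^ 2 = 200 * d ^ 6)]
        have x4 : 200 * d ^ 5 * S ≤ S * S * S := mul_le_mul_of_nonneg_right x2 (by linarith)
        have x5 : 200 ≤ S := by linarith
        have x6 : 200 * (S * S) ≤ S * (S * S) := mul_le_mul_of_nonneg_right x5 (by positivity)
        have z1 : S * S ^ 2 = S ^ 3 := by ring
        have z2 : S * S * S = S ^ 3 := by ring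
        have z3 : S * (S * S) = S ^ 3 := by ring
        have z4 : 0 < S ^ 3 := by positivity
        rw [z1] at x1; rw [z2] at x4; rw [z3] at x6
        linarith)
    exact regimeA_zero S d _ _ _ hd (by linarith) (by linarith) (b1.trans n1) (b0.trans n0) hzero
  · left
    refine ⟨hreg, ?_⟩
    by_contra hc
    push Not at hc
    obtain ⟨n2, n1, n0⟩ := regimeB_num N d hN hd hreg
    set D := d ^ 2 * N ^ 2 with hD
    have u1 : d ^ 2 ≤ D := by nlinarith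
    have u2 : N ^ 2 ≤ D := by nlinarith
    have hD1 : 1 ≤ D := by linarith
    have hfac := factor_large N d S s σ _ _ _ _ hN hd hΔ hP hR hE (by linarith) (by linarith)
      hσ h1
    have hS0 : 0 ≤ S := by linarith
    have c2 : |16 * (A₂ - A₁) ^ 2 - 3 * d ^ 4 - 24 * (A₁ + A₂) * d ^ 2 + 96 * d * (B₂ - B₁)|
        ≤ 496 * D := by
      have d4 : 0 ≤ d ^ 4 := by positivity
      have := abs_le.mp hb2'
      exact abs_le.mpr ⟨by linarith, by linarith⟩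
    have hzero := combine S _ _ _ _ _ (496 * D) (178 * D) (6016 * D) (by linarith) hfac hid
      c2 (b1.trans n1) (b0.trans n0) (by
        have x1 : 3000 * D * S ^ 2 ≤ S * S ^ 2 :=
          mul_le_mul_of_nonneg_right hc.le (by positivity)
        have x2 : 3000 * D * S ≤ S * S := mul_le_mul_of_nonneg_right hc.le hS0
        have x5 : 3000 ≤ S := by linarith
        have x6 : 3000 * (S * S) ≤ S * (S * S) := mul_le_mul_of_nonneg_right x5 (by positivity)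
        have x7 : 3000 * S ≤ S * S := mul_le_mul_of_nonneg_right x5 hS0
        have z1 : S * S ^ 2 = S ^ 3 := by ring
        have z3 : S * (S * S) = S ^ 3 := by ring
        have z4 : 0 < S ^ 3 := by positivity
        rw [z1] at x1; rw [z3] at x6
        linarith)
    obtain ⟨z2, z1, z0⟩ := regimeB_zero S D _ _ _ hD1 hc (b1.trans n1) (b0.trans n0) hzero
    obtain ⟨q1, q2⟩ := both_singular d _ _ _ _ A₁ B₁ A₂ B₂ (by linarith) rfl rfl rfl rfl z2 z1 z0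
    rcases hns with h | h
    · exact h q1
    · exact h q2

end Pool.Agent.LibRepulsion
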