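import Pool.Agent.LibRepulsion.Except

namespace Pool.Agent.LibRepulsion

theorem rpow_gap (x x' : ℤ) (hx : 0 ≤ x) (hlt : x < x') (hgap : x' ≤ 200000 * (x' - x) ^ 4) :
    29 * (x : ℝ) ^ (3 / 4 : ℝ) + 1 ≤ 29 * (x' : ℝ) ^ (3 / 4 : ℝ) := by
  have hx'0 : (0 : ℝ) < x' := by exact_mod_cast lt_of_le_of_lt hx hlt
  have hx0 : (0 : ℝ) ≤ x := by exact_mod_cast hx
  set d : ℝ := (x' : ℝ) - x with hd
  have hd0 : 0 < d := by rw [hd]; have : (x : ℝ) < x' := by exact_mod_cast hlt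
                         linarith
  have hgap' : (x' : ℝ) ≤ 200000 * d ^ 4 := by rw [hd]; exact_mod_cast hgap
  -- Bernoulli
  have hb : (1 + (-(d / x'))) ^ (3 / 4 : ℝ) ≤ 1 + (3 / 4 : ℝ) * (-(d / x')) := by
    apply rpow_one_add_le_one_add_mul_self
    · have : d / x' ≤ 1 := by rw [div_le_one hx'0, hd]; linarith
      linarith
    · norm_num
    · norm_num
  have hxe : (x : ℝ) = x' * (1 + (-(d / x'))) := by rw [hd]; field_simp; ring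
  have h1 : (x : ℝ) ^ (3 / 4 : ℝ) ≤ (x' : ℝ) ^ (3 / 4 : ℝ) * (1 + (3 / 4 : ℝ) * (-(d / x'))) := by
    have hnn : 0 ≤ 1 + (-(d / x')) := by
      have : d / x' ≤ 1 := by rw [div_le_one hx'0, hd]; linarith
      linarith
    calc (x : ℝ) ^ (3 / 4 : ℝ) = (x' * (1 + (-(d / x')))) ^ (3 / 4 : ℝ) := by rw [← hxe]
      _ = (x' : ℝ) ^ (3 / 4 : ℝ) * (1 + (-(d / x'))) ^ (3 / 4 : ℝ) :=
          Real.mul_rpow hx'0.le hnn
      _ ≤ _ := by gcongr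
  have h2 : (x' : ℝ) ^ (3 / 4 : ℝ) * (1 / x') = ((x' : ℝ) ^ (1 / 4 : ℝ))⁻¹ := by
    rw [← Real.rpow_neg hx'0.le, one_div, ← Real.rpow_neg_one, ← Real.rpow_add hx'0]
    norm_num
  have h3 : (x' : ℝ) ^ (1 / 4 : ℝ) ≤ 21.75 * d := by
    have : (x' : ℝ) ≤ (21.75 * d) ^ 4 := by
      rw [mul_pow]; norm_num; nlinarith [pow_pos hd0 4]
    calc (x' : ℝ) ^ (1 / 4 : ℝ) ≤ ((21.75 * d) ^ 4) ^ (1 / 4 : ℝ) :=
          Real.rpow_le_rpow hx'0.le this (by norm_num)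
      _ = 21.75 * d := by
          rw [← Real.rpow_natCast, ← Real.rpow_mul (by positivity)]
          norm_num
  have h4 : 0 < (x' : ℝ) ^ (1 / 4 : ℝ) := Real.rpow_pos_of_pos hx'0 _
  have h5 : 1 ≤ 21.75 * d * ((x' : ℝ) ^ (1 / 4 : ℝ))⁻¹ := by
    rw [← div_eq_mul_inv, le_div_iff₀ h4]; linarith
  have h6 : (x' : ℝ) ^ (3 / 4 : ℝ) * (1 + (3 / 4 : ℝ) * (-(d / x')))
      = (x' : ℝ) ^ (3 / 4 : ℝ) - 3 / 4 * d * ((x' : ℝ) ^ (1 / 4 : ℝ))⁻¹ := by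
    rw [← h2]; ring
  rw [h6] at h1
  linarith

theorem count (X : ℝ) (hX : 1 ≤ X) :
    {x : ℤ | |(x : ℝ)| ≤ X ∧ ∃ A B y : ℤ, 4 * A ^ 3 + 27 * B ^ 2 ≠ 0 ∧
      y ^ 2 = x ^ 3 + A * x + B ∧ max |A| |B| ^ 4 < |x|}.Finite ∧
    ({x : ℤ | |(x : ℝ)| ≤ X ∧ ∃ A B y : ℤ, 4 * A ^ 3 + 27 * B ^ 2 ≠ 0 ∧
      y ^ 2 = x ^ 3 + A * x + B ∧ max |A| |B| ^ 4 < |x|}.ncard : ℝ)
      ≤ 29 * X ^ (3 / 4 : ℝ) + 10 ^ 22 := by
  set T : Set ℤ := {x : ℤ | |(x : ℝ)| ≤ X ∧ ∃ A B y : ℤ, 4 * A ^ 3 + 27 * B ^ 2 ≠ 0 ∧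
      y ^ 2 = x ^ 3 + A * x + B ∧ max |A| |B| ^ 4 < |x|} with hT
  set S₁ : Set ℤ := Set.Ico (-2) (200000 ^ 4) with hS₁
  set S₂ : Set ℤ := {x : ℤ | x ∈ T ∧ 200000 ^ 4 ≤ x} with hS₂
  have hfin1 : S₁.Finite := Set.finite_Ico _ _
  have hfinT : T.Finite := by
    apply (Set.finite_Icc (-⌊X⌋) ⌊X⌋).subset
    rintro x ⟨hx, -⟩
    have := abs_le.mp hx
    constructor
    · have : -x ≤ ⌊X⌋ := by rw [Int.le_floor]; push_cast; linarith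
      linarith
    · rw [Int.le_floor]; linarith
  have hfin2 : S₂.Finite := hfinT.subset (fun x hx => hx.1)
  refine ⟨hfinT, ?_⟩
  have hsub : T ⊆ S₁ ∪ S₂ := by
    intro x hx
    by_cases hb : 200000 ^ 4 ≤ x
    · right; exact ⟨hx, hb⟩
    · left
      push Not at hb
      refine ⟨?_, hb⟩
      rcases lt_or_ge x 0 with h | h
      · obtain ⟨-, A, B, y, hns, he, hl⟩ := hx
        have := except_neg A B x y hns he hl h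
        rw [abs_of_neg h] at this; linarith
      · linarith
  have hinj : Set.InjOn (fun x : ℤ => ⌊29 * (x : ℝ) ^ (3 / 4 : ℝ)⌋₊) S₂ := by
    have key : ∀ x ∈ S₂, ∀ x' ∈ S₂, x < x' →
        ⌊29 * (x : ℝ) ^ (3 / 4 : ℝ)⌋₊ ≠ ⌊29 * (x' : ℝ) ^ (3 / 4 : ℝ)⌋₊ := by
      rintro x ⟨⟨-, A, B, y, hns, he, hl⟩, hx⟩ x' ⟨⟨-, A', B', y', hns', he', hl'⟩, hx'⟩ hlt heq
      have hx0 : 0 ≤ x := le_trans (by norm_num) hx
      have hg := except_gap A B x y A' B' x' y' hns he hl he' hl' hx0 hlt hx'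
      have hr := rpow_gap x x' hx0 hlt hg
      have hnn : 0 ≤ 29 * (x : ℝ) ^ (3 / 4 : ℝ) := by
        have : (0 : ℝ) ≤ x := by exact_mod_cast hx0
        positivity
      have h1 : ⌊29 * (x : ℝ) ^ (3 / 4 : ℝ)⌋₊ + 1 ≤ ⌊29 * (x' : ℝ) ^ (3 / 4 : ℝ)⌋₊ := by
        apply Nat.le_floor
        push_cast
        have := Nat.floor_le hnn
        linarith
      omega
    intro x hx x' hx' heq
    rcases lt_trichotomy x x' with h | h | h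
    · exact (key x hx x' hx' h heq).elim
    · exact h
    · exact (key x' hx' x hx h heq.symm).elim
  have hcard2 : (S₂.ncard : ℝ) ≤ 29 * X ^ (3 / 4 : ℝ) + 1 := by
    have hmaps : (fun x : ℤ => ⌊29 * (x : ℝ) ^ (3 / 4 : ℝ)⌋₊) '' S₂ ⊆
        Set.Iio (⌊29 * X ^ (3 / 4 : ℝ)⌋₊ + 1) := by
      rintro _ ⟨x, ⟨⟨hx1, -⟩, hx2⟩, rfl⟩
      rw [Set.mem_Iio, Nat.lt_succ_iff]
      apply Nat.floor_le_floor
      have hx0 : (0 : ℝ) ≤ x := by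
        have : 0 ≤ x := le_trans (by norm_num) hx2
        exact_mod_cast this
      have : (x : ℝ) ≤ X := (le_abs_self _).trans hx1
      gcongr
    have h1 : S₂.ncard ≤ (Set.Iio (⌊29 * X ^ (3 / 4 : ℝ)⌋₊ + 1)).ncard := by
      rw [← Set.ncard_image_of_injOn hinj]
      exact Set.ncard_le_ncard hmaps (Set.finite_Iio _)
    have h2 : (Set.Iio (⌊29 * X ^ (3 / 4 : ℝ)⌋₊ + 1)).ncard = ⌊29 * X ^ (3 / 4 : ℝ)⌋₊ + 1 := by
      rw [← Finset.coe_range, Set.ncard_coe_finset, Finset.card_range]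
    rw [h2] at h1
    have h3 : (⌊29 * X ^ (3 / 4 : ℝ)⌋₊ : ℝ) ≤ 29 * X ^ (3 / 4 : ℝ) :=
      Nat.floor_le (by positivity)
    have h4 : (S₂.ncard : ℝ) ≤ ((⌊29 * X ^ (3 / 4 : ℝ)⌋₊ + 1 : ℕ) : ℝ) := by exact_mod_cast h1
    push_cast at h4
    linarith
  have hcard1 : (S₁.ncard : ℝ) ≤ 2 * 10 ^ 21 := by
    have : S₁.ncard = 200000 ^ 4 + 2 := by
      rw [hS₁, ← Finset.coe_Ico, Set.ncard_coe_finset, Int.card_Ico]
      rfl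
    rw [this]; norm_num
  have hT1 : T.ncard ≤ S₁.ncard + S₂.ncard :=
    (Set.ncard_le_ncard hsub (hfin1.union hfin2)).trans (Set.ncard_union_le _ _)
  have hT2 : (T.ncard : ℝ) ≤ S₁.ncard + S₂.ncard := by exact_mod_cast hT1
  have : (2 : ℝ) * 10 ^ 21 + 1 ≤ 10 ^ 22 := by norm_num
  linarith

end Pool.Agent.LibRepulsion
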