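import Pool.Agent.LibRepulsion.Pairs

namespace Pool.Agent.LibRepulsion

theorem interval_subsingleton (N X : ℤ) (hX : 200000 * N ^ 3 < X) :
    {x : ℤ | X ≤ x ∧ 200000 * (x - X) ^ 4 < X ∧ ∃ A B y : ℤ, |A| ≤ N ∧ |B| ≤ N ∧
      4 * A ^ 3 + 27 * B ^ 2 ≠ 0 ∧ y ^ 2 = x ^ 3 + A * x + B}.Subsingleton := by
  have key : ∀ x x' : ℤ, X ≤ x → 200000 * (x' - X) ^ 4 < X → x < x' →
      (∃ A B y : ℤ, |A| ≤ N ∧ |B| ≤ N ∧ 4 * A ^ 3 + 27 * B ^ 2 ≠ 0 ∧ y ^ 2 = x ^ 3 + A * x + B) →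
      (∃ A B y : ℤ, |A| ≤ N ∧ |B| ≤ N ∧ 4 * A ^ 3 + 27 * B ^ 2 ≠ 0 ∧
        y ^ 2 = x' ^ 3 + A * x' + B) → False := by
    rintro x x' h1 h2 h3 ⟨A, B, y, hA, hB, hns, he⟩ ⟨A', B', y', hA', hB', -, he'⟩
    have hN := N_pos N A B hA hB hns
    have hr := repulsion N A B A' B' x y x' y' hA hB hA' hB' (Or.inl hns) he he' h3.ne
    have hN3 : 0 < N ^ 3 := by positivity
    have g1 : x' ≤ max |x| |x'| := (le_abs_self _).trans (le_max_right _ _)
    have g2 : (x - x') ^ 4 ≤ (x' - X) ^ 4 := by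
      have : (x - x') ^ 4 = (x' - x) ^ 4 := by ring
      rw [this]
      exact pow_le_pow_left₀ (by linarith) (by linarith) 4
    have g3 : N ^ 2 * min ((x - x') ^ 2) N ≤ N ^ 3 := by
      have : min ((x - x') ^ 2) N ≤ N := min_le_right _ _
      nlinarith [sq_nonneg N]
    rcases max_cases ((x - x') ^ 4) (N ^ 2 * min ((x - x') ^ 2) N) with ⟨h, -⟩ | ⟨h, -⟩
    · rw [h] at hr; linarith
    · rw [h] at hr; linarith
  rintro x ⟨hx1, hx2, hx3⟩ x' ⟨hx1', hx2', hx3'⟩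
  rcases lt_trichotomy x x' with h | h | h
  · exact (key x x' hx1 hx2' h hx3 hx3').elim
  · exact h
  · exact (key x' x hx1' hx2 h hx3' hx3).elim

/-- large exceptional coordinates are far apart -/
theorem except_gap (A B x y A' B' x' y' : ℤ)
    (hns : 4 * A ^ 3 + 27 * B ^ 2 ≠ 0)
    (he : y ^ 2 = x ^ 3 + A * x + B) (hl : max |A| |B| ^ 4 < |x|)
    (he' : y' ^ 2 = x' ^ 3 + A' * x' + B') (hl' : max |A'| |B'| ^ 4 < |x'|)
    (hx : 0 ≤ x) (hlt : x < x') (hbig : 200000 ^ 4 ≤ x') : x' ≤ 200000 * (x' - x) ^ 4 := by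
  set N := max (max |A| |B|) (max |A'| |B'|) with hN
  have hx' : 0 < x' := by linarith
  rw [abs_of_nonneg hx] at hl
  rw [abs_of_pos hx'] at hl'
  have hN4 : N ^ 4 < x' := by
    rcases max_cases (max |A| |B|) (max |A'| |B'|) with ⟨h, -⟩ | ⟨h, -⟩
    · rw [hN, h]; linarith
    · rw [hN, h]; linarith
  have hA : |A| ≤ N := (le_max_left _ _).trans (le_max_left _ _)
  have hB : |B| ≤ N := (le_max_right _ _).trans (le_max_left _ _)
  have hA' : |A'| ≤ N := (le_max_left _ _).trans (le_max_right _ _)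
  have hB' : |B'| ≤ N := (le_max_right _ _).trans (le_max_right _ _)
  have hN1 := N_pos N A B hA hB hns
  have hr := repulsion N A B A' B' x y x' y' hA hB hA' hB' (Or.inl hns) he he' hlt.ne
  have g1 : x' ≤ max |x| |x'| := (le_abs_self _).trans (le_max_right _ _)
  have g3 : N ^ 2 * min ((x - x') ^ 2) N ≤ N ^ 3 := by
    have : min ((x - x') ^ 2) N ≤ N := min_le_right _ _
    nlinarith [sq_nonneg N]
  have g2 : (x - x') ^ 4 = (x' - x) ^ 4 := by ring
  rcases max_cases ((x - x') ^ 4) (N ^ 2 * min ((x - x') ^ 2) N) with ⟨h, -⟩ | ⟨h, -⟩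
  · rw [h, g2] at hr; linarith
  · exfalso
    rw [h] at hr
    have h1 : x' ≤ 200000 * N ^ 3 := by linarith
    -- N ^ 4 < 200000 N ^ 3 so N < 200000, so x' < 200000^4
    have h2 : N < 200000 := by
      have h3 : N ^ 3 * N < N ^ 3 * 200000 := by
        have : N ^ 3 * N = N ^ 4 := by ring
        rw [this]; linarith
      exact lt_of_mul_lt_mul_left h3 (by positivity)
    have h4 : N ^ 3 < 200000 ^ 3 := pow_lt_pow_left₀ h2 (by linarith) (by norm_num)
    have : (200000 : ℤ) * 200000 ^ 3 = 200000 ^ 4 := by norm_num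
    linarith

theorem except_neg (A B x y : ℤ) (hns : 4 * A ^ 3 + 27 * B ^ 2 ≠ 0)
    (he : y ^ 2 = x ^ 3 + A * x + B) (hl : max |A| |B| ^ 4 < |x|) (hx : x < 0) : |x| ≤ 2 := by
  have hN1 := N_pos (max |A| |B|) A B (le_max_left _ _) (le_max_right _ _) hns
  have h := neg_small (max |A| |B|) A B x y hN1 (le_max_left _ _) (le_max_right _ _) he hx
  set N := max |A| |B|
  have h1 : N ^ 4 < 2 * N := by linarith
  have h2 : N < 2 := by
    by_contra hc
    push Not at hc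
    have : N ^ 4 = N ^ 3 * N := by ring
    have h8 : 8 ≤ N ^ 3 := by nlinarith [sq_nonneg N]
    nlinarith
  have : N = 1 := by omega
  rw [this] at h; linarith

end Pool.Agent.LibRepulsion
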