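import Pool.Agent.LibRepulsion.Count

/-!
# Repulsion of the integral points of Weierstrass curves of bounded height

For integral points on two curves of height at most `N` (at least one of them nonsingular) with
different first coordinates at distance `d`, the first coordinates are at most a constant times
`max (d ^ 4) (N ^ 2 * min (d ^ 2) N)`.  The proof evaluates the integer
`8 (y₂ - y₁) ^ 2 - 9 d ^ 2 (x₁ + x₂) - 12 d (A₂ - A₁)`.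
-/

namespace Pool.Agent.LibRepulsion.Final

open Pool.Agent.LibRepulsion

/-- a violation of the inequality of Q1 with K = 2, M = 6 has a large first coordinate -/
theorem violation (A B x y : ℤ) (hns : 4 * A ^ 3 + 27 * B ^ 2 ≠ 0)
    (he : y ^ 2 = x ^ 3 + A * x + B) (h : 2 * max |A| |B| ^ 6 < max |x| |y|) :
    max |A| |B| ^ 4 < |x| := by
  have hN1 := N_pos (max |A| |B|) A B (le_max_left _ _) (le_max_right _ _) hns
  have hA : |A| ≤ max |A| |B| := le_max_left _ _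
  have hB : |B| ≤ max |A| |B| := le_max_right _ _
  set N := max |A| |B| with hN
  by_contra hc
  push Not at hc
  have h46 : N ^ 4 ≤ N ^ 6 := pow_le_pow_right₀ hN1 (by norm_num)
  have hN6 : 0 < N ^ 6 := by positivity
  have hy : |y| ≤ 2 * N ^ 6 := by
    apply abs_le_of_sq_le_sq _ (by positivity)
    have h1 : y ^ 2 ≤ |x| ^ 3 + |A| * |x| + |B| := by
      rw [he]
      have a1 : x ^ 3 ≤ |x| ^ 3 := by rw [← abs_pow]; exact le_abs_self _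
      have a2 : A * x ≤ |A| * |x| := by rw [← abs_mul]; exact le_abs_self _
      have a3 := le_abs_self B
      linarith
    have h2 : |x| ^ 3 ≤ (N ^ 4) ^ 3 := pow_le_pow_left₀ (abs_nonneg _) hc 3
    have h3 : |A| * |x| ≤ N * N ^ 4 := mul_le_mul hA hc (abs_nonneg _) (by linarith)
    have h4 : N * N ^ 4 ≤ N ^ 12 := by
      have : N * N ^ 4 = N ^ 5 := by ring
      rw [this]; exact pow_le_pow_right₀ hN1 (by norm_num)
    have h5 : N ≤ N ^ 12 := le_self_pow₀ hN1 (by norm_num)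
    have h6 : (N ^ 4) ^ 3 = N ^ 12 := by ring
    have h7 : (2 * N ^ 6) ^ 2 = 4 * N ^ 12 := by ring
    have h8 : 0 < N ^ 12 := by positivity
    rw [h7]; linarith
  have hx : |x| ≤ 2 * N ^ 6 := by linarith
  exact absurd h (not_lt.mpr (max_le hx hy))

/-- (1) the repulsion inequality; (2) short intervals contain at most one coordinate;
(3) the coordinates of the violations of Q1 with `K = 2`, `M = 6` are rare;
(4) the power of `N` in (1) cannot be lowered at fixed distance -/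
theorem result :
    (∀ N A₁ B₁ A₂ B₂ x₁ y₁ x₂ y₂ : ℤ, |A₁| ≤ N → |B₁| ≤ N → |A₂| ≤ N → |B₂| ≤ N →
      (4 * A₁ ^ 3 + 27 * B₁ ^ 2 ≠ 0 ∨ 4 * A₂ ^ 3 + 27 * B₂ ^ 2 ≠ 0) →
      y₁ ^ 2 = x₁ ^ 3 + A₁ * x₁ + B₁ → y₂ ^ 2 = x₂ ^ 3 + A₂ * x₂ + B₂ → x₁ ≠ x₂ →
      max |x₁| |x₂| ≤ 200000 * max ((x₁ - x₂) ^ 4) (N ^ 2 * min ((x₁ - x₂) ^ 2) N)) ∧
    (∀ N X : ℤ, 200000 * N ^ 3 < X →
      {x : ℤ | X ≤ x ∧ 200000 * (x - X) ^ 4 < X ∧ ∃ A B y : ℤ, |A| ≤ N ∧ |B| ≤ N ∧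
        4 * A ^ 3 + 27 * B ^ 2 ≠ 0 ∧ y ^ 2 = x ^ 3 + A * x + B}.Subsingleton) ∧
    (∀ X : ℝ, 1 ≤ X →
      ({x : ℤ | |(x : ℝ)| ≤ X ∧ ∃ A B y : ℤ, 4 * A ^ 3 + 27 * B ^ 2 ≠ 0 ∧
        y ^ 2 = x ^ 3 + A * x + B ∧ 2 * max |A| |B| ^ 6 < max |x| |y|}.ncard : ℝ)
        ≤ 29 * X ^ (3 / 4 : ℝ) + 10 ^ 22) ∧
    (∀ t : ℤ, 1 ≤ t → ∃ A₁ B₁ A₂ B₂ x₁ y₁ x₂ y₂ : ℤ, |A₁| ≤ 2 * t ∧ |B₁| ≤ 2 * t ∧
      |A₂| ≤ 2 * t ∧ |B₂| ≤ 2 * t ∧ 4 * A₁ ^ 3 + 27 * B₁ ^ 2 ≠ 0 ∧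
      4 * A₂ ^ 3 + 27 * B₂ ^ 2 ≠ 0 ∧ y₁ ^ 2 = x₁ ^ 3 + A₁ * x₁ + B₁ ∧
      y₂ ^ 2 = x₂ ^ 3 + A₂ * x₂ + B₂ ∧ x₂ = x₁ + 2 ∧ (2 * t) ^ 2 ≤ 4 * x₁) := by
  refine ⟨?_, ?_, ?_, ?_⟩
  · intro N A₁ B₁ A₂ B₂ x₁ y₁ x₂ y₂ hA₁ hB₁ hA₂ hB₂ hns e1 e2 hne
    exact repulsion N A₁ B₁ A₂ B₂ x₁ y₁ x₂ y₂ hA₁ hB₁ hA₂ hB₂ hns e1 e2 hne
  · intro N X hX
    exact interval_subsingleton N X hX
  · intro X hX
    obtain ⟨hfin, hc⟩ := count X hX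
    have hsub : {x : ℤ | |(x : ℝ)| ≤ X ∧ ∃ A B y : ℤ, 4 * A ^ 3 + 27 * B ^ 2 ≠ 0 ∧
        y ^ 2 = x ^ 3 + A * x + B ∧ 2 * max |A| |B| ^ 6 < max |x| |y|} ⊆
        {x : ℤ | |(x : ℝ)| ≤ X ∧ ∃ A B y : ℤ, 4 * A ^ 3 + 27 * B ^ 2 ≠ 0 ∧
        y ^ 2 = x ^ 3 + A * x + B ∧ max |A| |B| ^ 4 < |x|} := by
      rintro x ⟨hx, A, B, y, hns, he, hl⟩
      exact ⟨hx, A, B, y, hns, he, violation A B x y hns he hl⟩
    have hle := Set.ncard_le_ncard hsub hfin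
    refine le_trans ?_ hc
    exact_mod_cast hle
  · intro t ht
    refine ⟨2 * t, 1, 2 * t - 3, 2 * t - 1, t ^ 2, t ^ 3 + 1, t ^ 2 + 2, t ^ 3 + 3 * t + 1,
      ?_, ?_, ?_, ?_, ?_, ?_, by ring, by ring, by ring, by nlinarith⟩
    · rw [abs_of_nonneg (by linarith)]
    · rw [abs_of_nonneg (by norm_num)]; linarith
    · rw [abs_le]; constructor <;> linarith
    · rw [abs_le]; constructor <;> linarith
    · have : 0 < t ^ 3 := by positivity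
      have e : 4 * (2 * t) ^ 3 + 27 * 1 ^ 2 = 32 * t ^ 3 + 27 := by ring
      rw [e]; linarith
    · rcases eq_or_lt_of_le ht with h | h
      · rw [← h]; norm_num
      · have h2 : 1 ≤ 2 * t - 3 := by omega
        have : 0 < (2 * t - 3) ^ 3 := by positivity
        nlinarith [sq_nonneg (2 * t - 1)]

end Pool.Agent.LibRepulsion.Final
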