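import Pool.Agent.LibRepulsion.Core

namespace Pool.Agent.LibRepulsion

theorem neg_small (N A B x y : ℤ) (hN : 1 ≤ N) (hA : |A| ≤ N) (hB : |B| ≤ N)
    (h : y ^ 2 = x ^ 3 + A * x + B) (hx : x < 0) : |x| ≤ 2 * N := by
  rw [abs_of_neg hx]
  have hA' := abs_le.mp hA
  have hB' := abs_le.mp hB
  by_contra hc
  push Not at hc
  -- u = -x > 2N
  have h0 : 0 ≤ x ^ 3 + A * x + B := by rw [← h]; positivity
  have h1 : A * x ≤ N * (-x) := by nlinarith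
  have h2 : (-x) ^ 3 ≤ N * (-x) + N := by
    have : (-x) ^ 3 = -(x ^ 3) := by ring
    rw [this]; linarith
  have h3 : N ≤ N * (-x) := by nlinarith
  have h4 : (-x) ^ 3 ≤ (2 * N) * (-x) := by linarith
  have h5 : (-x) ^ 2 ≤ 2 * N := by
    have e : (-x) ^ 3 = (-x) ^ 2 * (-x) := by ring
    rw [e] at h4
    exact le_of_mul_le_mul_right h4 (by linarith)
  nlinarith

theorem repulsion_lt (N A₁ B₁ A₂ B₂ x₁ y₁ x₂ y₂ : ℤ) (hN : 1 ≤ N)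
    (hA₁ : |A₁| ≤ N) (hB₁ : |B₁| ≤ N) (hA₂ : |A₂| ≤ N) (hB₂ : |B₂| ≤ N)
    (hns : 4 * A₁ ^ 3 + 27 * B₁ ^ 2 ≠ 0 ∨ 4 * A₂ ^ 3 + 27 * B₂ ^ 2 ≠ 0)
    (e1 : y₁ ^ 2 = x₁ ^ 3 + A₁ * x₁ + B₁) (e2 : y₂ ^ 2 = x₂ ^ 3 + A₂ * x₂ + B₂)
    (hlt : x₁ < x₂) :
    max |x₁| |x₂| ≤ 200000 * max ((x₂ - x₁) ^ 4) (N ^ 2 * min ((x₂ - x₁) ^ 2) N) := by
  set d := x₂ - x₁ with hd
  have hd1 : 1 ≤ d := by omega
  have hd2 : 1 ≤ d ^ 2 := by nlinarith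
  have hmin1 : 1 ≤ min (d ^ 2) N := le_min hd2 hN
  have hN2 : N ≤ N ^ 2 := by nlinarith
  have hM1 : N ≤ max (d ^ 4) (N ^ 2 * min (d ^ 2) N) := by
    refine le_trans ?_ (le_max_right _ _)
    nlinarith
  have hM2 : d ≤ max (d ^ 4) (N ^ 2 * min (d ^ 2) N) := by
    refine le_trans ?_ (le_max_left _ _)
    have : d ^ 2 ≤ d ^ 4 := by nlinarith
    nlinarith
  rcases lt_or_ge x₁ 0 with h1 | h1
  · have k1 := neg_small N A₁ B₁ x₁ y₁ hN hA₁ hB₁ e1 h1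
    refine max_le (by linarith) ?_
    rcases lt_or_ge x₂ 0 with h2 | h2
    · have k2 := neg_small N A₂ B₂ x₂ y₂ hN hA₂ hB₂ e2 h2
      linarith
    · rw [abs_of_nonneg h2]
      have : x₂ ≤ d := by omega
      linarith
  · have h2 : 0 < x₂ := by omega
    rw [abs_of_nonneg h1, abs_of_pos h2, max_eq_right hlt.le]
    have hS : x₂ ≤ x₁ + x₂ := by linarith
    have hy1 : |y₁| ^ 2 = x₁ ^ 3 + A₁ * x₁ + B₁ := by rw [sq_abs]; exact e1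
    have hy2 : |y₂| ^ 2 = x₂ ^ 3 + A₂ * x₂ + B₂ := by rw [sq_abs]; exact e2
    have hσ : |(|y₂| - |y₁|)| ≤ |y₁| + |y₂| := by
      have a := abs_nonneg y₁
      have b := abs_nonneg y₂
      rw [abs_le]; constructor <;> linarith
    have := main_core N d (x₁ + x₂) A₁ B₁ A₂ B₂ (|y₂| - |y₁|) (|y₁| + |y₂|) hN hd1
      hA₁ hB₁ hA₂ hB₂ hns hσ
      (by rw [hd]; linear_combination 4 * hy2 - 4 * hy1)
      (by rw [hd]; linear_combination 4 * hy2 + 4 * hy1)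
    rcases this with ⟨g1, g2⟩ | ⟨g1, g2⟩
    · have : d ^ 2 * N ^ 2 ≤ 64 * (N ^ 2 * min (d ^ 2) N) := by
        rcases le_total (d ^ 2) N with h | h
        · rw [min_eq_left h]; nlinarith [sq_nonneg N, sq_nonneg d, mul_nonneg (sq_nonneg N) (sq_nonneg d)]
        · rw [min_eq_right h]; nlinarith [sq_nonneg N]
      have h3 := le_max_right (d ^ 4) (N ^ 2 * min (d ^ 2) N)
      have h4 : 0 ≤ N ^ 2 * min (d ^ 2) N := by positivity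
      linarith
    · have h3 := le_max_left (d ^ 4) (N ^ 2 * min (d ^ 2) N)
      have h4 : 0 ≤ d ^ 4 := by positivity
      linarith

theorem N_pos (N A B : ℤ) (hA : |A| ≤ N) (hB : |B| ≤ N)
    (h : 4 * A ^ 3 + 27 * B ^ 2 ≠ 0) : 1 ≤ N := by
  by_contra hc
  have hN : N ≤ 0 := by omega
  have a : A = 0 := abs_eq_zero.mp (le_antisymm (hA.trans hN) (abs_nonneg _))
  have b : B = 0 := abs_eq_zero.mp (le_antisymm (hB.trans hN) (abs_nonneg _))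
  apply h; rw [a, b]; norm_num

theorem repulsion (N A₁ B₁ A₂ B₂ x₁ y₁ x₂ y₂ : ℤ)
    (hA₁ : |A₁| ≤ N) (hB₁ : |B₁| ≤ N) (hA₂ : |A₂| ≤ N) (hB₂ : |B₂| ≤ N)
    (hns : 4 * A₁ ^ 3 + 27 * B₁ ^ 2 ≠ 0 ∨ 4 * A₂ ^ 3 + 27 * B₂ ^ 2 ≠ 0)
    (e1 : y₁ ^ 2 = x₁ ^ 3 + A₁ * x₁ + B₁) (e2 : y₂ ^ 2 = x₂ ^ 3 + A₂ * x₂ + B₂)
    (hne : x₁ ≠ x₂) :
    max |x₁| |x₂| ≤ 200000 * max ((x₁ - x₂) ^ 4) (N ^ 2 * min ((x₁ - x₂) ^ 2) N) := by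
  have hN : 1 ≤ N := by
    rcases hns with h | h
    · exact N_pos N A₁ B₁ hA₁ hB₁ h
    · exact N_pos N A₂ B₂ hA₂ hB₂ h
  rcases lt_or_gt_of_ne hne with h | h
  · have := repulsion_lt N A₁ B₁ A₂ B₂ x₁ y₁ x₂ y₂ hN hA₁ hB₁ hA₂ hB₂ hns e1 e2 h
    have f4 : (x₁ - x₂) ^ 4 = (x₂ - x₁) ^ 4 := by ring
    have f2 : (x₁ - x₂) ^ 2 = (x₂ - x₁) ^ 2 := by ring
    rw [f4, f2]; exact this
  · have := repulsion_lt N A₂ B₂ A₁ B₁ x₂ y₂ x₁ y₁ hN hA₂ hB₂ hA₁ hB₁ hns.symm e2 e1 h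
    rw [max_comm]; exact this

end Pool.Agent.LibRepulsion
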